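import Pool.Agent.H22.CM.Stm

/-! # Crew CM, part COM -/

set_option autoImplicit false

namespace H55.CM

open H22.CM Pool.Agent.Y382.PAR

theorem hasCM_of_allPar {G : Type} [Group G] [Finite G] (h : AllPar G) : HasCM G := by
  obtain ⟨f, F, hF, _⟩ := h 1 1
  exact ⟨f, F, hF⟩

theorem inter_trivial {G : Type} [Group G] [Finite G] (K P : Subgroup G)
    (hK : Odd (Nat.card K)) (hP : IsPGroup 2 P) : ∀ x, x ∈ K → x ∈ P → x = 1 := by
  intro x hxK hxP
  have h1 : orderOf x ∣ Nat.card K := by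
    have := orderOf_dvd_natCard (⟨x, hxK⟩ : K)
    rwa [Subgroup.orderOf_mk] at this
  obtain ⟨k, hk⟩ := hP ⟨x, hxP⟩
  have hk' : x ^ 2 ^ k = 1 := by
    have := congrArg Subtype.val hk
    simpa using this
  have h2 : orderOf x ∣ 2 ^ k := orderOf_dvd_of_pow_eq_one hk'
  have hcop : Nat.Coprime (Nat.card K) (2 ^ k) := by
    apply Nat.Coprime.pow_right
    exact (Nat.coprime_two_right.2 hK)
  have h3 : orderOf x ∣ 1 := by
    have := Nat.dvd_gcd h1 h2
    rwa [hcop] at this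
  exact orderOf_eq_one_iff.1 (Nat.dvd_one.1 h3)

theorem t_COM (hFAC : S_FAC) (hHOLE : S_HOLE) (hTWO : S_TWO) : S_COM := by
  intro G _ _ K P hK hP hcard hcyc hbig
  have hA : AllPar P := hTWO P hP hcyc hbig
  exact hHOLE G P (hFAC G K P hK (inter_trivial K P hK hP) hcard (hasCM_of_allPar hA)) hA

end H55.CM
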