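import Pool.Agent.H22.CM.Stm

/-! # Crew CM, part FAM -/

set_option autoImplicit false

namespace H55.CM

open H22.CM Pool.Agent.Y382.PAR

theorem t_FAM (hHOLE : S_HOLE) (hCOO : S_COO) (hTRO : S_TRO) (hF16 : S_F16) (hF32 : S_F32)
    (hSTP : S_STP) : S_FAM := by
  intro G _ _ k
  induction k using Nat.strong_induction_on generalizing G with
  | _ k ih =>
  intro r e hk hFT hFam
  by_cases h2 : k = 2
  · subst h2
    have hF : Fam G 4 r e := by simpa using hFam
    have hT : FT 4 r e := by simpa using hFT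
    exact (hTRO G (4 * 4) (lawF 4 r e) (hCOO G 4 r e (by norm_num) hF)).1 (hF16 r e hT)
  by_cases h3 : k = 3
  · subst h3
    have hF : Fam G 8 r e := by simpa using hFam
    have hT : FT 8 r e := by simpa using hFT
    exact (hTRO G (4 * 8) (lawF 8 r e) (hCOO G 8 r e (by norm_num) hF)).1 (hF32 r e hT)
  obtain ⟨j, rfl⟩ : ∃ j, k = j + 2 := ⟨k - 2, by omega⟩
  have h4 : 2 ^ (j + 2) = 4 * 2 ^ j := by ring
  have hj : 2 ≤ j := by omega
  have hK : 2 ≤ 2 ^ j := by
    calc 2 = 2 ^ 1 := by norm_num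
      _ ≤ 2 ^ j := Nat.pow_le_pow_right (by norm_num) (by omega)
  have hE : Even (2 ^ j) := (Nat.even_pow.2 ⟨even_two, by omega⟩)
  rw [h4] at hFT hFam
  obtain ⟨L, r', e', hHole, hFT', hFam'⟩ := hSTP G (2 ^ j) r e hK hE hFT hFam
  exact hHOLE G L hHole (ih j (by omega) L r' e' hj hFT' hFam')

end H55.CM
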