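import Pool.Agent.H22.CM.Stm
import Pool.Graph.R_seed8.Y382.PAR.Asm

/-! # Crew CM, part SOC -/

set_option autoImplicit false

namespace H55.CM.SOC

open H22.CM Pool.Agent.Y382.PAR

theorem inter_trivial {G : Type} [Group G] [Finite G] (K P : Subgroup G)
    (hK : Odd (Nat.card K)) (hP : IsPGroup 2 P) : ∀ x, x ∈ K → x ∈ P → x = 1 := by
  intro x hxK hxP
  have h1 : orderOf x ∣ Nat.card K := by
    have := orderOf_dvd_natCard (⟨x, hxK⟩ : K)
    rwa [Subgroup.orderOf_mk] at this
  obtain ⟨k, hk⟩ := hP ⟨x, hxP⟩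
  have hk' : x ^ 2 ^ k = 1 := by
    have := congrArg Subtype.val hk
    simpa using this
  have h2 : orderOf x ∣ 2 ^ k := orderOf_dvd_of_pow_eq_one hk'
  have hcop : Nat.Coprime (Nat.card K) (2 ^ k) := by
    apply Nat.Coprime.pow_right
    exact (Nat.coprime_two_right.2 hK)
  have h3 : orderOf x ∣ 1 := by
    have := Nat.dvd_gcd h1 h2
    rwa [hcop] at this
  exact orderOf_eq_one_iff.1 (Nat.dvd_one.1 h3)

theorem t_SOC (hHAL : S_HAL) (hFAC : S_FAC) (hHOC : S_HOC) (hHPT : S_HPT) : S_SOC := by
  intro G _ _ _ h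
  classical
  haveI : Fact (Nat.Prime 2) := ⟨Nat.prime_two⟩
  obtain ⟨P⟩ : Nonempty (Sylow 2 G) := inferInstance
  obtain ⟨K, hKodd, n, hKn⟩ := hHAL G
  have hcP : Nat.card P = 2 ^ (Nat.card G).factorization 2 := P.card_eq_multiplicity
  have hfac : (Nat.card G).factorization 2 = n := by
    rw [← hKn, Nat.factorization_mul (Nat.card_pos.ne') (by positivity)]
    rw [Finsupp.add_apply, Nat.factorization_pow]
    have h1 : (Nat.card K).factorization 2 = 0 :=
      Nat.factorization_eq_zero_of_not_dvd (fun hd => (Nat.not_even_iff_odd.2 hKodd) (even_iff_two_dvd.2 hd))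
    rw [h1]
    simp [Nat.Prime.factorization Nat.prime_two]
  rw [hfac] at hcP
  rcases h P with hbot | hcyc
  · -- odd order
    have h1 : Nat.card P = 1 := by
      have : Nat.card (P : Subgroup G) = 1 := by rw [hbot]; exact Subgroup.card_bot
      exact this
    have hodd : Odd (Nat.card G) := by
      rw [← hKn, ← hcP, h1, mul_one]
      exact hKodd
    exact odd_cm G hodd
  · have hCM : HasCM (P : Subgroup G) := hHPT _ P.isPGroup' hcyc
    have hHole : Hole G (P : Subgroup G) :=
      hFAC G K P hKodd (inter_trivial K P hKodd P.isPGroup') (by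
        have : Nat.card (P : Subgroup G) = 2 ^ n := hcP
        rw [this]; exact hKn) hCM
    exact hHOC G P hHole hCM

end H55.CM.SOC
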